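import Pool.Agent.Run7.h286.PL.StmC
import Pool.Agent.N352.JB.All

/-!
# Project PRL (helper286), piece K6 (helper215): the explicit 2-Selmer group has the order of the
cohomological one
-/

set_option autoImplicit false
set_option linter.all false

open Polynomial IsDedekindDomain
open scoped Classical

namespace Run7.h215.PLC

open Run7.h286.PLC
open Pool.Agent.Y160.SE
open Pool.Agent.TH115.GD (incl rs ak)
open Pool.Agent.N352.JB
open Pool.Agent.N106.JB (ad mu ad_mu mu_ad ad_inj ad_mul ad_div ad_pow ad_mapJ ACoc ATriv acoc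
  atriv good2)
open Pool.Agent.Y713.Jac (J mapJ Gal Cochain IsCocycle IsCoboundary IsTrivialOver)

section locim

variable {F : Type} [Field F] {f h h' : F[X]}

theorem locIm_mul (H : LocIm F f h) (H' : LocIm F f h') : LocIm F f (h * h') := by
  obtain ⟨l, s, hl, a, ha⟩ := H
  obtain ⟨l', s', hl', b, hb⟩ := H'
  refine ⟨l ++ l', s * s', ?_, ?_⟩
  · intro p hp
    rcases List.mem_append.1 hp with h | h
    · exact hl p h
    · exact hl' p h
  · rw [List.map_append, List.prod_append]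
    refine ⟨a * (h' * (l'.map fun p => (-1) ^ p.1.natDegree * p.1).prod) + s ^ 2 * b, ?_⟩
    linear_combination (h' * (l'.map fun p => (-1) ^ p.1.natDegree * p.1).prod) * ha + s ^ 2 * hb

theorem locIm_congr (H : LocIm F f h) (e : f ∣ h - h') : LocIm F f h' := by
  obtain ⟨l, s, hl, a, ha⟩ := H
  obtain ⟨b, hb⟩ := e
  refine ⟨l, s, hl, a - b * (l.map fun p => (-1) ^ p.1.natDegree * p.1).prod, ?_⟩
  linear_combination ha - (l.map fun p => (-1) ^ p.1.natDegree * p.1).prod * hb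

theorem locIm_one : LocIm F f 1 := ⟨[], 1, by simp, by simp⟩

theorem locIm_inv (H : LocIm F f h) (e : f ∣ h * h' - 1) : LocIm F f h' := by
  obtain ⟨l, s, hl, a, ha⟩ := H
  obtain ⟨b, hb⟩ := e
  refine ⟨l, h' * s, hl, a * h' ^ 2 - h' * (l.map fun p => (-1) ^ p.1.natDegree * p.1).prod * b, ?_⟩
  linear_combination h' ^ 2 * ha - h' * (l.map fun p => (-1) ^ p.1.natDegree * p.1).prod * hb

end locim

section selE

variable {K : Type} [Field K] {f : K[X]} {Pl : ∀ (E : Type) [Field E] [Algebra K E], Prop}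

/-- The generators of `SelE` form a group. -/
theorem selE_iff (α : (AdjoinRoot f)ˣ) : α ∈ SelE f Pl ↔
    IsSquare (Algebra.norm K (α : AdjoinRoot f)) ∧
    ∃ h : K[X], AdjoinRoot.mk f h = α ∧ ∀ (E : Type) [Field E] [Algebra K E], Pl E →
      LocIm E (f.map (algebraMap K E)) (h.map (algebraMap K E)) := by
  constructor
  · intro hα
    unfold SelE at hα
    induction hα using Subgroup.closure_induction with
    | mem x hx => exact hx
    | one =>
      refine ⟨?_, 1, by simp, fun E _ _ _ => ?_⟩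
      · rw [Units.val_one, map_one]
        exact IsSquare.one
      · rw [Polynomial.map_one]
        exact locIm_one
    | mul x y _ _ h1 h2 =>
      obtain ⟨a1, p, hp, b1⟩ := h1
      obtain ⟨a2, q, hq, b2⟩ := h2
      refine ⟨?_, p * q, ?_, fun E _ _ hE => ?_⟩
      · rw [Units.val_mul, map_mul]
        exact a1.mul a2
      · rw [map_mul, hp, hq, Units.val_mul]
      · rw [Polynomial.map_mul]
        exact locIm_mul (b1 E hE) (b2 E hE)
    | inv x _ h1 =>
      obtain ⟨a1, p, hp, b1⟩ := h1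
      obtain ⟨q, hq⟩ := AdjoinRoot.mk_surjective (g := f) ((x⁻¹ : (AdjoinRoot f)ˣ) : AdjoinRoot f)
      have hpq : f ∣ p * q - 1 := by
        rw [← AdjoinRoot.mk_eq_zero, map_sub, map_mul, hp, hq, map_one, Units.mul_inv, sub_self]
      refine ⟨?_, q, hq, fun E _ _ hE => ?_⟩
      · have h3 : Algebra.norm K ((x⁻¹ : (AdjoinRoot f)ˣ) : AdjoinRoot f) *
            Algebra.norm K (x : AdjoinRoot f) = 1 := by
          rw [← map_mul, Units.inv_mul, map_one]
        have h4 : Algebra.norm K ((x⁻¹ : (AdjoinRoot f)ˣ) : AdjoinRoot f) =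
            (Algebra.norm K (x : AdjoinRoot f))⁻¹ := eq_inv_of_mul_eq_one_left h3
        rw [h4]
        exact IsSquare.inv a1
      · refine locIm_inv (b1 E hE) ?_
        have := Polynomial.map_dvd (algebraMap K E) hpq
        simpa using this
  · intro h
    exact Subgroup.subset_closure h

theorem sq_iff (α β : (AdjoinRoot f)ˣ) {h h' : K[X]} (e : AdjoinRoot.mk f h = α)
    (e' : AdjoinRoot.mk f h' = β) :
    α⁻¹ * β ∈ (powMonoidHom 2 : (AdjoinRoot f)ˣ →* _).range ↔ ∃ s : K[X], f ∣ h * h' - s ^ 2 := by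
  constructor
  · rintro ⟨u, hu⟩
    have hu' : u ^ 2 = α⁻¹ * β := hu
    obtain ⟨s, hs⟩ := AdjoinRoot.mk_surjective (g := f) ((α * u : (AdjoinRoot f)ˣ) : AdjoinRoot f)
    refine ⟨s, ?_⟩
    have h3 : (α * u) ^ 2 = α * β := by
      rw [mul_pow, hu', pow_two, mul_assoc, mul_inv_cancel_left]
    rw [← AdjoinRoot.mk_eq_zero, map_sub, map_mul, map_pow, e, e', hs, ← Units.val_mul,
      ← Units.val_pow_eq_pow_val, h3, sub_self]
  · rintro ⟨s, hs⟩
    rw [← AdjoinRoot.mk_eq_zero, map_sub, map_mul, map_pow, e, e', ← Units.val_mul, sub_eq_zero] at hs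
    have hu : IsUnit (AdjoinRoot.mk f s) := by
      rw [← isUnit_pow_iff (two_ne_zero), ← hs]
      exact Units.isUnit _
    obtain ⟨w, hw⟩ := hu
    have hw2 : w ^ 2 = α * β := by
      apply Units.ext
      rw [Units.val_pow_eq_pow_val, hw, hs]
    refine ⟨α⁻¹ * w, ?_⟩
    show (α⁻¹ * w) ^ 2 = α⁻¹ * β
    rw [mul_pow, hw2, pow_two, mul_assoc, inv_mul_cancel_left]

end selE

section coc

variable {K : Type} [Field K] {f : K[X]} {Pl : ∀ (E : Type) [Field E] [Algebra K E], Prop}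

theorem cop_of (hg : Good 2 (-1 : K) f) (hirr : Irreducible f)
    {c : Gal K → Jac 2 f (SeparableClosure K)} {h : K[X]}
    {b : SeparableClosure K → SeparableClosure K} (hK : KumD hg c h b) : IsCoprime h f := by
  have hnd : ¬ f ∣ h := by
    intro hd
    obtain ⟨e, he⟩ := exists_rt hg (SeparableClosure K)
    obtain ⟨hb0, hb1⟩ := hK.val e he
    apply hb0
    have : aeval e h = 0 := by
      obtain ⟨q, hq⟩ := hd
      rw [hq, map_mul, show aeval e f = 0 from he, zero_mul]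
    rw [this] at hb1
    exact pow_eq_zero_iff (two_ne_zero) |>.1 hb1
  exact ((hirr.coprime_iff_not_dvd).2 hnd).symm

theorem unit_of {h : K[X]} (hc : IsCoprime h f) :
    ∃ α : (AdjoinRoot f)ˣ, AdjoinRoot.mk f h = α := by
  obtain ⟨u, v, huv⟩ := hc
  have : AdjoinRoot.mk f u * AdjoinRoot.mk f h = 1 := by
    have := congrArg (AdjoinRoot.mk f) huv
    rw [map_add, map_mul, map_mul, AdjoinRoot.mk_self, mul_zero, add_zero, map_one] at this
    exact this
  have hu : IsUnit (AdjoinRoot.mk f h) := IsUnit.of_mul_eq_one _ (by rw [mul_comm]; exact this)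
  exact ⟨hu.unit, rfl⟩

theorem tor_of (h4 : S_DBL) (hg : Good 2 (-1 : K) f) {c : Cochain 2 f} (h : ∀ σ, c σ ^ 2 = 1)
    (σ : Gal K) : Tor hg (ad (c σ) : Jac 2 f (SeparableClosure K)) := by
  rw [(h4 K (SeparableClosure K) f hg).1, ← ad_pow, h σ]
  rfl

theorem kum_ex (h1 : S_KUM) (h2 : S_LOC) (h4 : S_DBL) (hg : Good 2 (-1 : K) f)
    (hirr : Irreducible f) (c : {c : Cochain 2 f // SelCoc f Pl c}) :
    ∃ (h : K[X]) (b : SeparableClosure K → SeparableClosure K) (α : SelE f Pl),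
      KumD hg (fun σ => (ad (c.1 σ) : Jac 2 f (SeparableClosure K))) h b ∧
      AdjoinRoot.mk f h = ((α : (AdjoinRoot f)ˣ) : AdjoinRoot f) := by
  obtain ⟨c, hc⟩ := c
  have ha := acoc hc.coc
  have ht : ∀ σ, Tor hg (ad (c σ) : Jac 2 f (SeparableClosure K)) := tor_of h4 hg hc.two
  obtain ⟨h, b, hK, hsq⟩ := h1 K (SeparableClosure K) f hg hirr _ ha.1 ha.2 ht
  obtain ⟨α, hα⟩ := unit_of (cop_of hg hirr hK)
  refine ⟨h, b, ⟨α, ?_⟩, hK, hα⟩
  rw [selE_iff]
  refine ⟨hα ▸ hsq, h, hα, fun E _ _ hE => ?_⟩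
  obtain ⟨ι, P, hP⟩ := atriv (hc.loc E hE)
  exact h2 K (SeparableClosure K) E (SeparableClosure E) f hg _ ht h b hK ι P hP

end coc

theorem T_K6' (h3 : P_K3) (h4 : P_K4) (h5 : P_K5) (hKUM : S_KUM) (hLOC : S_LOC) (hCOB : S_COB)
    (hDBL : S_DBL) : P_K6 := by
  intro K _ f hK2 hm hirr hsep hodd Pl
  have H := hyps
  have hg : Good 2 (-1 : K) f := good2 hK2 hm hsep hodd
  choose hh bb αα hKd hmk using kum_ex (Pl := Pl) hKUM hLOC hDBL hg hirr
  have key : ∀ c c' : {c : Cochain 2 f // SelCoc f Pl c}, Cohom f c.1 c'.1 ↔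
      ((αα c : SelE f Pl ⧸ ((powMonoidHom 2 : (AdjoinRoot f)ˣ →* _).range.subgroupOf (SelE f Pl))) =
        αα c') := by
    intro c c'
    rw [QuotientGroup.eq, Subgroup.mem_subgroupOf]
    have e1 : (((αα c)⁻¹ * αα c' : SelE f Pl) : (AdjoinRoot f)ˣ) =
        ((αα c : (AdjoinRoot f)ˣ))⁻¹ * (αα c' : (AdjoinRoot f)ˣ) := rfl
    rw [e1, sq_iff _ _ (hmk c) (hmk c')]
    have t1 := tor_of hDBL hg c.2.two
    have t2 := tor_of hDBL hg c'.2.two
    constructor
    · rintro ⟨R, hR2, hR⟩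
      have tR : Tor hg (ad R : Jac 2 f (SeparableClosure K)) := by
        rw [(hDBL K (SeparableClosure K) f hg).1, ← ad_pow, hR2]
        rfl
      refine h4 K (SeparableClosure K) f hg hirr _ _ _ _ _ _ (ad R) t1 t2 (hKd c) (hKd c') tR ?_
      intro σ
      show ad (c.1 σ) = _
      rw [hR σ, ad_mul, ad_div, ad_mapJ]
      rfl
    · rintro ⟨s, hs⟩
      have hcc : ∀ σ τ : Gal K, (ad (c.1 (σ * τ)) - ad (c'.1 (σ * τ)) : Jac 2 f (SeparableClosure K)) =
          (ad (c.1 σ) - ad (c'.1 σ)) + jm 2 f (ak σ) (ad (c.1 τ) - ad (c'.1 τ)) := by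
        intro σ τ
        have q1 := (acoc c.2.coc).2 σ τ
        have q2 := (acoc c'.2.coc).2 σ τ
        simp only at q1 q2
        rw [q1, q2, map_sub]
        abel
      have hT : ∀ σ : Gal K, Tor hg (ad (c.1 σ) - ad (c'.1 σ) : Jac 2 f (SeparableClosure K)) :=
        fun σ => (t1 σ).sub (t2 σ)
      have hKK : KumD hg (fun σ : Gal K => (ad (c.1 σ) - ad (c'.1 σ) : Jac 2 f (SeparableClosure K)))
          (hh c * hh c') (fun e => bb c e * bb c' e) := by
        refine ⟨fun e he => ⟨mul_ne_zero ((hKd c).val e he).1 ((hKd c').val e he).1, ?_⟩,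
          fun σ e he => ?_⟩
        · rw [mul_pow, ((hKd c).val e he).2, ((hKd c').val e he).2, map_mul]
        · have hσe : Rt f (σ e) := he.map (ak σ)
          rw [map_mul, (hKd c).gal σ e he, (hKd c').gal σ e he, chi_sub H hg (t1 σ) (t2 σ) hσe]
          have hp := chi_pow H hg (t2 σ) hσe
          have hne := chi_ne H hg (t2 σ) hσe
          field_simp
          linear_combination (chi hg (σ e) (ad (c.1 σ)) * bb c (σ e) * bb c' (σ e)) * hp
      obtain ⟨R, hR1, hR2⟩ := hCOB K (SeparableClosure K) f hg hirr _ hcc hT _ _ hKK s hs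
      refine ⟨mu R, ?_, fun σ => ad_inj ?_⟩
      · have := ((hDBL K (SeparableClosure K) f hg).1 R).1 hR1
        exact ad_inj (by rw [ad_pow, ad_mu, this]; rfl)
      · rw [ad_mul, ad_div, ad_mapJ, ad_mu]
        have h6 : (ad (c.1 σ) - ad (c'.1 σ) : Jac 2 f (SeparableClosure K)) =
          jm 2 f (ak σ) R - R := hR2 σ
        have h7 : (jm 2 f σ.toAlgHom R : Jac 2 f (SeparableClosure K)) = jm 2 f (ak σ) R := rfl
        rw [h7, ← h6]
        abel
  let Φ : SelH f Pl →
      (SelE f Pl ⧸ ((powMonoidHom 2 : (AdjoinRoot f)ˣ →* _).range.subgroupOf (SelE f Pl))) :=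
    Quot.lift (fun c => ((αα c : SelE f Pl) : SelE f Pl ⧸ _)) fun c c' hcc => (key c c').1 hcc
  have hbij : Function.Bijective Φ := by
    constructor
    · intro x y
      induction x using Quot.ind with
      | mk c =>
        induction y using Quot.ind with
        | mk c' =>
          intro h
          exact Quot.sound ((key c c').2 h)
    · intro y
      obtain ⟨α, rfl⟩ := QuotientGroup.mk_surjective y
      obtain ⟨hsq, h, hh', hloc⟩ := (selE_iff (α : (AdjoinRoot f)ˣ)).1 α.2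
      have hcop : IsCoprime h f := by
        have hnd : ¬ f ∣ h := by
          intro hd
          rw [← AdjoinRoot.mk_eq_zero, hh'] at hd
          haveI : Fact (Irreducible f) := ⟨hirr⟩
          exact (α : (AdjoinRoot f)ˣ).ne_zero hd
        exact ((hirr.coprime_iff_not_dvd).2 hnd).symm
      have hsq' : IsSquare (Algebra.norm K (AdjoinRoot.mk f h)) := by rw [hh']; exact hsq
      obtain ⟨c, b, hc1, hc2, hc3, hK⟩ := h3 K (SeparableClosure K) f hg hirr hodd h hcop hsq'
      have hS : SelCoc f Pl (fun σ => mu (c σ)) := by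
        refine ⟨⟨hc1.comp _, fun σ τ => ad_inj ?_⟩, fun σ => ad_inj ?_, fun E _ _ hE => ?_⟩
        · rw [ad_mu, ad_mul, ad_mapJ, ad_mu, ad_mu, hc2 σ τ]
          rfl
        · rw [ad_pow, ad_mu, ((hDBL K (SeparableClosure K) f hg).1 (c σ)).1 (hc3 σ)]
          rfl
        · let ι : SeparableClosure K →ₐ[K] SeparableClosure E := IsSepClosed.lift
          obtain ⟨P, hP⟩ := h5 K (SeparableClosure K) E (SeparableClosure E) f hg hodd c hc3 h b
            hsq' hK (hloc E hE) ι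
          refine ⟨ι, mu P, fun τ σ hx => ad_inj ?_⟩
          rw [ad_mapJ, ad_div, ad_mapJ, ad_mu, ad_mu, hP τ σ hx]
          rfl
      refine ⟨Quot.mk _ ⟨_, hS⟩, ?_⟩
      show (QuotientGroup.mk (αα ⟨_, hS⟩) :
        SelE f Pl ⧸ ((powMonoidHom 2 : (AdjoinRoot f)ˣ →* _).range.subgroupOf (SelE f Pl))) =
          QuotientGroup.mk α
      rw [QuotientGroup.eq, Subgroup.mem_subgroupOf]
      have e1 : (((αα ⟨_, hS⟩)⁻¹ * α : SelE f Pl) : (AdjoinRoot f)ˣ) =
          ((αα ⟨_, hS⟩ : (AdjoinRoot f)ˣ))⁻¹ * (α : (AdjoinRoot f)ˣ) := rfl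
      rw [e1, sq_iff _ _ (hmk _) hh']
      refine h4 K (SeparableClosure K) f hg hirr _ c _ _ _ _ 0 (tor_of hDBL hg hS.two) hc3
        (hKd ⟨_, hS⟩) hK Tor.zero fun σ => ?_
      rw [map_zero, sub_zero, add_zero]
      rfl
  rw [Nat.card_congr (Equiv.ofBijective Φ hbij)]
  rfl

theorem T_K6 (h3 : P_K3) (h4 : P_K4) (h5 : P_K5) : P_K6 :=
  T_K6' h3 h4 h5 (Pool.Agent.N232.JB.kum Pool.Agent.N615.JB.lag Pool.Agent.N615.JB.nrm)
    (Pool.Agent.N424.JB.loc Pool.Agent.N615.JB.lag sqlT) Pool.Agent.N615.JB.cob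
    Pool.Agent.N615.JB.dbl

end Run7.h215.PLC
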