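import Pool.Agent.Run7.h286.PL.StmD
import Pool.Agent.Run7.h711.PL.BRG
import Pool.Agent.Run7.h68.TG.FIN

/-!
# Project PRL (helper286), piece TRU (helper215): order of the true Selmer group
-/

set_option autoImplicit false
set_option linter.all false

open Polynomial IsDedekindDomain
open scoped Classical

namespace Run7.h215.PLC

open Run7.h286.PLC
open Pool.Agent.N874.PP (Ov Ev Sq1)
open Pool.Agent.N352.PJ Run7.h784.TG Run7.h875.TS Run7.h286.PL
open Run7.h81.TG (loc1')
open Pool.Agent.TH115.GD (CompInf)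
open Pool.Agent.Y713.Jac (J)

theorem relIndex_two_pow {A : Type} [CommGroup A] (G : Subgroup A)
    (h0 : (powMonoidHom 2 : A →* _).range.relIndex G ≠ 0) :
    (powMonoidHom 2 : A →* _).range.relIndex G =
      2 ^ Nat.log 2 ((powMonoidHom 2 : A →* _).range.relIndex G) := by
  haveI : Fact (Nat.Prime 2) := ⟨Nat.prime_two⟩
  have h1 : (powMonoidHom 2 : A →* _).range.relIndex G =
    Nat.card (G ⧸ (powMonoidHom 2 : A →* _).range.subgroupOf G) := rfl
  haveI : Finite (G ⧸ (powMonoidHom 2 : A →* _).range.subgroupOf G) :=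
    Nat.finite_of_card_ne_zero (by rw [← h1]; exact h0)
  have h2 : IsPGroup 2 (G ⧸ (powMonoidHom 2 : A →* _).range.subgroupOf G) := by
    intro x
    refine ⟨1, ?_⟩
    obtain ⟨y, rfl⟩ := QuotientGroup.mk_surjective x
    rw [pow_one, ← QuotientGroup.mk_pow, QuotientGroup.eq_one_iff, Subgroup.mem_subgroupOf]
    exact ⟨(y : A), rfl⟩
  obtain ⟨n, hn⟩ := IsPGroup.iff_card.1 h2
  have h4 : (powMonoidHom 2 : A →* _).range.relIndex G = 2 ^ n := h1.trans hn
  rw [h4, Nat.log_pow (by norm_num)]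

/-- Finiteness (after `T_BRG`). -/
theorem fin_selJ (hLOCW : P_LOCW) (hGRP : P_GRP) (hREP : P_REP)
    (k K L O : Type) [Field k] [Finite k] [Field K] [Algebra k[X] K]
    [IsFractionRing k[X] K]
    [Field L] [Algebra K L] [Algebra k[X] L] [IsScalarTower k[X] K L] [CommRing O]
    [IsDedekindDomain O] [Algebra O L] [IsFractionRing O L] [Algebra k[X] O]
    [IsScalarTower k[X] O L] [IsIntegralClosure O k[X] L] (g N : ℕ) (r : k[X]) (f : k[X][X]) (θ : L)
    (hFm : Fm g N r f) (hc : IsGen g K f θ) (D : k[X]) (hDm : D.Monic) (hDs : Squarefree D)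
    (hDd : ∀ P : k[X], Irreducible P → P ∣ D → ¬ P ∣ dsc g f) :
    ((powMonoidHom 2 : (AdjoinRoot ((f.scaleRoots D).map (algebraMap k[X] K)))ˣ →* _).range).relIndex
      (SelJ K (f.scaleRoots D)) ≠ 0 := by
  have hF := hFm.fam
  have hm := hc.mon
  have hd := hc.deg
  have hD0 : D ≠ 0 := hDm.ne_zero
  set F' : K[X] := (f.scaleRoots D).map (algebraMap k[X] K) with hF'
  haveI hfact' : Fact (Irreducible F') :=
    ⟨(Pool.Agent.N134.PJ.irk g k K f N r D hF.ht hFm.gr hF.inf hD0).2.1⟩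
  set Θ : L := algebraMap k[X] L D * θ with hΘ
  have hroot : aeval Θ F' = 0 := by
    rw [hF', aeval_map_algebraMap]
    have := scaleRoots_eval₂_mul (p := f) (algebraMap k[X] L) θ D
    rw [hc.root, mul_zero] at this
    rw [aeval_def]
    exact this
  have hmF' : F'.Monic := ((monic_scaleRoots_iff D).2 hm).map _
  let φ : AdjoinRoot F' →ₐ[K] L := AdjoinRoot.liftAlgHom F' (Algebra.ofId K _) Θ hroot
  have hφmk : ∀ p : K[X], φ (AdjoinRoot.mk F' p) = aeval Θ p := by
    intro p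
    have h1 := AdjoinRoot.liftAlgHom_mk F' (Algebra.ofId K L) Θ hroot p
    rw [Algebra.toRingHom_ofId, ← Polynomial.aeval_def] at h1
    exact h1
  have hφinj : Function.Injective φ := φ.toRingHom.injective
  haveI : FiniteDimensional K (AdjoinRoot F') := hmF'.finite_adjoinRoot
  haveI : FiniteDimensional K L := by
    apply FiniteDimensional.of_finrank_pos
    rw [hc.rank]; omega
  have hrk : Module.finrank K (AdjoinRoot F') = Module.finrank K L := by
    rw [hc.rank, (AdjoinRoot.powerBasis hmF'.ne_zero).finrank, AdjoinRoot.powerBasis_dim, hF',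
      ((monic_scaleRoots_iff D).2 hm).natDegree_map, natDegree_scaleRoots, hd]
  have hφsurj : Function.Surjective φ :=
    (LinearMap.injective_iff_surjective_of_finrank_eq_finrank (f := φ.toLinearMap) hrk).1 hφinj
  let e : AdjoinRoot F' ≃ₐ[K] L := AlgEquiv.ofBijective φ ⟨hφinj, hφsurj⟩
  have hemk : ∀ p : K[X], e (AdjoinRoot.mk F' p) = aeval Θ p := hφmk
  let eu : (AdjoinRoot F')ˣ ≃* Lˣ := Units.mapEquiv (e : AdjoinRoot F' ≃* L)
  have heu : ∀ α : (AdjoinRoot F')ˣ, ((eu α : Lˣ) : L) = e (α : AdjoinRoot F') := fun α => rfl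
  set S := prD D with hS
  have hST : GoodT g f S (fun P => D / P) := by
    refine ⟨fun P hP => ((mem_prD hD0).1 hP).1, fun P hP => ((mem_prD hD0).1 hP).2.1,
      fun P hP => ?_, fun P hP hPD' => ?_⟩
    · obtain ⟨hPm, hPi, hPD⟩ := (mem_prD hD0).1 hP
      exact hDd P hPi hPD
    · obtain ⟨hPm, hPi, hPD⟩ := (mem_prD hD0).1 hP
      have hmul : P * (D / P) = D := EuclideanDomain.mul_div_cancel' hPi.ne_zero hPD
      have h2 : P * P ∣ D := by
        rw [← hmul]
        exact mul_dvd_mul_left P hPD'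
      exact hPi.not_isUnit (hDs P h2)
  obtain ⟨hmem, hsqle⟩ := (hGRP k K L O g N r f θ hFm hc).2 S (fun P => D / P) hST
  have hsz : sz (SelG O K f θ S (fun P => D / P)) ≠ 0 :=
    (hREP k K L O g N r f θ hFm hc).2 S (fun P => D / P) hST hmem
  -- the squares
  have hsq : ((powMonoidHom 2 : (AdjoinRoot F')ˣ →* _).range).map (eu : (AdjoinRoot F')ˣ →* Lˣ) =
      sqL L := by
    ext x
    constructor
    · rintro ⟨_, ⟨z, rfl⟩, rfl⟩
      exact ⟨eu z, by
        show (eu z) ^ 2 = eu (z ^ 2)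
        rw [map_pow]⟩
    · rintro ⟨z, rfl⟩
      refine ⟨(eu.symm z) ^ 2, ⟨eu.symm z, rfl⟩, ?_⟩
      show eu ((eu.symm z) ^ 2) = z ^ 2
      rw [map_pow, MulEquiv.apply_symm_apply]
  have hrel : (sqL L).relIndex ((SelJ K (f.scaleRoots D)).map (eu : (AdjoinRoot F')ˣ →* Lˣ)) =
      ((powMonoidHom 2 : (AdjoinRoot F')ˣ →* _).range).relIndex (SelJ K (f.scaleRoots D)) := by
    rw [← hsq]
    exact Subgroup.relIndex_map_map_of_injective _ _ eu.injective
  -- the first inclusion
  have hle : (SelJ K (f.scaleRoots D)).map (eu : (AdjoinRoot F')ˣ →* Lˣ) ≤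
      SelG O K f θ S (fun P => D / P) := by
    rw [Subgroup.map_le_iff_le_comap]
    refine (Subgroup.closure_le _).2 ?_
    rintro α ⟨hnorm, h, hhα, hloc⟩
    show eu α ∈ SelG O K f θ S (fun P => D / P)
    rw [hmem, heu]
    have hα : e (α : AdjoinRoot F') = aeval Θ h := by rw [← hhα, hemk]
    have hne : aeval Θ h ≠ 0 := by
      rw [← hα]
      exact (eu α).ne_zero
    have hnorm' : IsSquare (Algebra.norm K (aeval Θ h)) := by
      rw [← hα, Algebra.norm_eq_of_algEquiv]
      exact hnorm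
    rw [hα]
    refine ⟨hne, hnorm', ?_, ?_⟩
    · intro P hPm hPi hPS 𝔓 hov
      have hPD : ¬ P ∣ D := fun hPD => hPS ((mem_prD hD0).2 ⟨hPm, hPi, hPD⟩)
      exact loc1' g k K L O f θ hFm.two hc hF.sq P
        ⟨Ideal.span {P}, (Ideal.span_singleton_prime hPi.ne_zero).2 hPi.prime, by
          rw [Ne, Ideal.span_singleton_eq_bot]; exact hPi.ne_zero⟩ hPi rfl D h hPD hne hnorm'
        (hloc _) 𝔓 hov
    · intro P hPS
      obtain ⟨hPm, hPi, hPD⟩ := (mem_prD hD0).1 hPS
      have hPn := hDd P hPi hPD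
      have hmul : P * (D / P) = D := EuclideanDomain.mul_div_cancel' hPi.ne_zero hPD
      have h3 := hLOCW k K L O g N r f θ hFm hc P
        ⟨Ideal.span {P}, (Ideal.span_singleton_prime hPi.ne_zero).2 hPi.prime, by
          rw [Ne, Ideal.span_singleton_eq_bot]; exact hPi.ne_zero⟩ hPm hPi hPn rfl (D / P) h
        (hST.nu P hPS)
      rw [hmul] at h3
      show LocW O f θ P (P * (D / P)) (aeval Θ h)
      rw [hmul]
      exact h3 hne (hloc _)
  rw [← hrel]
  intro h0
  exact hsz (Subgroup.relIndex_eq_zero_of_le_right hle h0)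

theorem selE_eq_selJ (hINF : P_INF) {k : Type} [Field k] [Finite k] {g N : ℕ} {r : k[X]}
    {f : k[X][X]} (hf : Fm g N r f) {K : Type} [Field K] [Algebra k[X] K] [IsFractionRing k[X] K]
    {D : k[X]} (hD : D ≠ 0) (hirr : Irreducible ((f.scaleRoots D).map (algebraMap k[X] K))) :
    SelE ((f.scaleRoots D).map (algebraMap k[X] K)) (AllPl k K) = SelJ K (f.scaleRoots D) := by
  unfold SelE SelJ
  congr 1
  ext α
  constructor
  · rintro ⟨hn, h, hh, hloc⟩
    refine ⟨hn, h, hh, fun v => ?_⟩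
    have h4 := hloc (v.adicCompletion K) (AllPl.fin v)
    unfold Pool.Agent.N352.JB.LocIm at h4
    rw [Polynomial.map_map] at h4
    exact h4
  · rintro ⟨hn, h, hh, hloc⟩
    refine ⟨hn, h, hh, fun E _ _ hE => ?_⟩
    cases hE with
    | fin v =>
      unfold Pool.Agent.N352.JB.LocIm
      rw [Polynomial.map_map]
      exact hloc v
    | inf =>
      haveI : Fact (Irreducible ((f.scaleRoots D).map (algebraMap k[X] K))) := ⟨hirr⟩
      have hcop : IsCoprime h ((f.scaleRoots D).map (algebraMap k[X] K)) := by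
        have hnd : ¬ ((f.scaleRoots D).map (algebraMap k[X] K)) ∣ h := by
          intro hd
          rw [← AdjoinRoot.mk_eq_zero, hh] at hd
          exact α.ne_zero hd
        exact ((hirr.coprime_iff_not_dvd).2 hnd).symm
      have hn' : IsSquare (Algebra.norm K
          (AdjoinRoot.mk ((f.scaleRoots D).map (algebraMap k[X] K)) h)) := by
        rw [hh]; exact hn
      obtain ⟨s, hs⟩ := hINF k g N r f hf K D hD h hcop hn'
      exact ⟨[], s, by simp, by simpa using hs⟩

theorem T_TRU (hK6 : P_K6) (hINF : P_INF) (hMWB : P_MWB) (hLOCW : P_LOCW) (hGRP : P_GRP)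
    (hREP : P_REP) : P_TRU := by
  intro k _ _ g N r f hf K _ _ _ D hDm hDs hDc
  obtain ⟨pk⟩ := Run7.h68.TG.exists_pack k K hf
  have hF := hf.fam
  have hD0 := hDm.ne_zero
  have hinj : Function.Injective (algebraMap k[X] K) := IsFractionRing.injective _ _
  obtain ⟨q1, q2, q3⟩ := Pool.Agent.N134.PJ.irk g k K f N r D hF.ht hf.gr hF.inf hD0
  have hmon : ((f.scaleRoots D).map (algebraMap k[X] K)).Monic :=
    ((monic_scaleRoots_iff D).2 hF.ht.mon).map _
  have hsep : ((f.scaleRoots D).map (algebraMap k[X] K)).Separable := (q3 hF.sq.ne_zero).2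
  have hodd : Odd ((f.scaleRoots D).map (algebraMap k[X] K)).natDegree := by
    rw [((monic_scaleRoots_iff D).2 hF.ht.mon).natDegree_map, natDegree_scaleRoots, hF.ht.deg]
    exact ⟨g, rfl⟩
  have h2 : (2 : K) ≠ 0 := by
    have h3 : (C (2 : k) : k[X]) ≠ 0 := C_ne_zero.2 hf.two
    have h4 : algebraMap k[X] K (C (2 : k)) ≠ 0 := (map_ne_zero_iff _ hinj).2 h3
    rwa [show (C (2 : k) : k[X]) = 2 from map_ofNat C 2, map_ofNat] at h4
  have hDd : ∀ P : k[X], Irreducible P → P ∣ D → ¬ P ∣ dsc g f :=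
    fun P hP hd h1 => hP.not_isUnit (hDc.isUnit_of_dvd' hd h1)
  have e1 := hK6 K _ h2 hmon q2 hsep hodd (AllPl k K)
  rw [selE_eq_selJ hINF hf hD0 q2] at e1
  have e2 := fin_selJ hLOCW hGRP hREP k K pk.L pk.O g N r f pk.θ hf pk.gen D hDm hDs hDd
  have e3 := relIndex_two_pow _ e2
  have e4 : Nat.card (SelH ((f.scaleRoots D).map (algebraMap k[X] K)) (AllPl k K)) =
      2 ^ rkJ K (f.scaleRoots D) := by
    rw [e1, e3]
    rfl
  obtain ⟨m1, m2⟩ := hMWB K _ h2 hmon q2 hsep hodd (AllPl k K)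
  have hfin : Finite (SelH ((f.scaleRoots D).map (algebraMap k[X] K)) (AllPl k K)) :=
    Nat.finite_of_card_ne_zero (by rw [e4]; positivity)
  obtain ⟨m3, m4⟩ := m2 hfin
  exact ⟨e4, m1, m3, e4 ▸ m4⟩

end Run7.h215.PLC
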